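import Mathlib

/-!
# Graphs of jets of very well covered graphs (MP_26e8bc_co, Q1): positive answer

A graph `G` is very well covered if and only if it has a perfect matching with Favaron's property:
for each matching edge `{v, m v}`, every neighbour of `v` is adjacent to every neighbour of `m v`.
If `m` is such a matching of `G`, then `(v, i) ↦ (m v, s - i)` is such a matching of the graph of
`s`-jets, since `a + i ≤ s` and `b + (s - i) ≤ s` give `a ≤ s - i` and `b ≤ i`, so `a + b ≤ s`.
Hence all graphs of jets of a very well covered graph are very well covered.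
-/

namespace Pool.Agent.Results.MP_26e8bc_co.JetsVeryWellCovered

open Finset

variable {V : Type*} [Fintype V]

/-- All maximal independent sets of `G` have the same size. -/
def WellCovered (G : SimpleGraph V) : Prop :=
  ∀ S T : Finset V, Maximal (fun U : Finset V => G.IsIndepSet (U : Set V)) S →
    Maximal (fun U : Finset V => G.IsIndepSet (U : Set V)) T → S.card = T.card

/-- `G` has no isolated vertices, is well covered, and `|V| = 2 α(G)`. -/
def VeryWellCovered (G : SimpleGraph V) : Prop :=
  (∀ v, ∃ w, G.Adj v w) ∧ WellCovered G ∧ Fintype.card V = 2 * G.indepNum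

/-- The graph of `s`-jets: vertices `(v, i)` with `0 ≤ i ≤ s`, and `(v, i)`, `(w, j)` adjacent
if and only if `v`, `w` are adjacent and `i + j ≤ s`. -/
def jets {V : Type*} (G : SimpleGraph V) (s : ℕ) : SimpleGraph (V × Fin (s + 1)) where
  Adj p q := G.Adj p.1 q.1 ∧ (p.2 : ℕ) + (q.2 : ℕ) ≤ s
  symm := ⟨fun p q h => ⟨h.1.symm, by omega⟩⟩
  loopless := ⟨fun p h => G.loopless.irrefl _ h.1⟩

theorem exists_maximal (G : SimpleGraph V) (A : Finset V) (hA : G.IsIndepSet (A : Set V)) :
    ∃ S : Finset V, A ⊆ S ∧ Maximal (fun U : Finset V => G.IsIndepSet (U : Set V)) S := by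
  obtain ⟨S, hAS, hS⟩ := (Set.toFinite {U : Finset V | G.IsIndepSet (U : Set V)}).exists_le_maximal
    (a := A) hA
  exact ⟨S, hAS, hS⟩

/-- A perfect matching, given by its involution `m`, with Favaron's property. -/
structure IsFavaron (G : SimpleGraph V) (m : V → V) : Prop where
  inv : ∀ v, m (m v) = v
  adj : ∀ v, G.Adj v (m v)
  prop : ∀ v u w, G.Adj u v → G.Adj w (m v) → G.Adj u w

theorem card_of_favaron {G : SimpleGraph V} {m : V → V} (h : IsFavaron G m) {S : Finset V}
    (hS : Maximal (fun U : Finset V => G.IsIndepSet (U : Set V)) S) :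
    Fintype.card V = 2 * S.card := by
  classical
  have key : ∀ v, v ∈ S ↔ m v ∉ S := by
    intro v
    constructor
    · intro hv hmv
      exact hS.prop hv hmv (h.adj v).ne (h.adj v)
    · intro hmv
      by_contra hv
      -- v has a neighbour in S
      have nb : ∀ x, x ∉ S → ∃ u ∈ S, G.Adj u x := by
        intro x hx
        by_contra hno
        push Not at hno
        have hI : G.IsIndepSet ((insert x S : Finset V) : Set V) := by
          intro a ha b hb hab
          rw [coe_insert, Set.mem_insert_iff] at ha hb
          rcases ha with rfl | ha <;> rcases hb with rfl | hb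
          · exact absurd rfl hab
          · exact fun hh => hno b hb hh.symm
          · exact fun hh => hno a ha hh
          · exact hS.prop ha hb hab
        exact hx (hS.le_of_ge hI (subset_insert x S) (mem_insert_self x S))
      obtain ⟨u, hu, huv⟩ := nb v hv
      obtain ⟨w, hw, hwv⟩ := nb (m v) hmv
      have huw := h.prop v u w huv hwv
      exact hS.prop hu hw huw.ne huw
  have hinj : Function.Injective m := fun a b hab => by rw [← h.inv a, hab, h.inv]
  have himg : S.image m = Sᶜ := by
    ext x
    rw [mem_image, mem_compl]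
    constructor
    · rintro ⟨v, hv, rfl⟩
      exact (key v).1 hv
    · intro hx
      refine ⟨m x, ?_, h.inv x⟩
      by_contra hmx
      exact hx ((key x).2 hmx)
  have h1 : (S.image m).card = S.card := card_image_of_injective _ hinj
  rw [himg, card_compl] at h1
  have h2 : S.card ≤ Fintype.card V := card_le_univ S
  omega

theorem veryWellCovered_of_favaron {G : SimpleGraph V} {m : V → V} (h : IsFavaron G m) :
    VeryWellCovered G := by
  refine ⟨fun v => ⟨m v, h.adj v⟩, fun S T hS hT => ?_, ?_⟩
  · have h1 := card_of_favaron h hS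
    have h2 := card_of_favaron h hT
    omega
  · obtain ⟨S, hS⟩ := G.maximumIndepSet_exists
    rw [← G.maximumIndepSet_card_eq_indepNum S hS]
    obtain ⟨T, hST, hT⟩ := exists_maximal G S hS.1
    have h1 : T.card ≤ S.card := hS.2 _ hT.prop
    have h2 : S = T := eq_of_subset_of_card_le hST h1
    rw [h2]
    exact card_of_favaron h hT

/-- The neighbourhood of a set. -/
noncomputable def nbr (G : SimpleGraph V) (A : Finset V) : Finset V := by
  classical exact univ.filter fun b => ∃ a ∈ A, G.Adj a b

theorem mem_nbr {G : SimpleGraph V} {A : Finset V} {b : V} :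
    b ∈ nbr G A ↔ ∃ a ∈ A, G.Adj a b := by
  simp [nbr]

/-- Hall's condition for independent sets of a well covered graph without isolated vertices. -/
theorem hall {G : SimpleGraph V} (hiso : ∀ v, ∃ w, G.Adj v w) (hw : WellCovered G) :
    ∀ A : Finset V, G.IsIndepSet (A : Set V) → A.card ≤ (nbr G A).card := by
  classical
  intro A
  induction A using Finset.strongInduction with
  | H A ih =>
    intro hA
    rcases A.eq_empty_or_nonempty with rfl | ⟨a, ha⟩
    · simp
    obtain ⟨b, hab⟩ := hiso a
    obtain ⟨S, hbS, hS⟩ := exists_maximal G {b} (by simp [SimpleGraph.IsIndepSet])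
    have hbS' : b ∈ S := hbS (mem_singleton_self b)
    have haS : a ∉ S := fun h => hS.prop h hbS' hab.ne hab
    have hsub : A ∩ S ⊂ A := by
      refine ⟨inter_subset_left, fun h => haS (mem_inter.mp (h ha)).2⟩
    have ih' := ih (A ∩ S) hsub (hA.mono (by simp))
    -- the set (S \ N(A)) ∪ A is independent
    have hI : G.IsIndepSet (((S \ nbr G A) ∪ A : Finset V) : Set V) := by
      intro x hx y hy hxy
      rw [mem_coe, mem_union, mem_sdiff] at hx hy
      rcases hx with hx | hx <;> rcases hy with hy | hy
      · exact hS.prop hx.1 hy.1 hxy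
      · exact fun hh => hx.2 (mem_nbr.2 ⟨y, hy, hh.symm⟩)
      · exact fun hh => hy.2 (mem_nbr.2 ⟨x, hx, hh⟩)
      · exact hA hx hy hxy
    obtain ⟨T, hIT, hT⟩ := exists_maximal G _ hI
    have hcard : ((S \ nbr G A) ∪ A).card ≤ S.card := by
      rw [hw S T hS hT]
      exact card_le_card hIT
    have h1 : ((S \ nbr G A) ∪ A).card = (S \ nbr G A).card + (A \ S).card := by
      have : (S \ nbr G A) ∪ A = (S \ nbr G A) ∪ (A \ S) := by
        ext x
        simp only [mem_union, mem_sdiff]
        constructor
        · rintro (h | h)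
          · exact Or.inl h
          · by_cases hx : x ∈ S
            · left
              refine ⟨hx, fun hn => ?_⟩
              obtain ⟨y, hy, hyx⟩ := mem_nbr.1 hn
              exact hA hy h hyx.ne hyx
            · exact Or.inr ⟨h, hx⟩
        · rintro (h | h)
          · exact Or.inl h
          · exact Or.inr h.1
      rw [this, card_union_of_disjoint]
      rw [disjoint_left]
      intro x hx hx2
      exact (mem_sdiff.1 hx2).2 (mem_sdiff.1 hx).1
    have h2 : (S \ nbr G A).card + (S ∩ nbr G A).card = S.card := card_sdiff_add_card_inter _ _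
    have h3 : (nbr G (A ∩ S)).card + (S ∩ nbr G A).card ≤ (nbr G A).card := by
      rw [← card_union_of_disjoint]
      · refine card_le_card (union_subset ?_ inter_subset_right)
        intro x hx
        obtain ⟨y, hy, hyx⟩ := mem_nbr.1 hx
        exact mem_nbr.2 ⟨y, (mem_inter.1 hy).1, hyx⟩
      · rw [disjoint_left]
        intro x hx hx2
        obtain ⟨y, hy, hyx⟩ := mem_nbr.1 hx
        exact hS.prop (mem_inter.1 hy).2 (mem_inter.1 hx2).1 hyx.ne hyx
    have h4 : (A \ S).card + (A ∩ S).card = A.card := card_sdiff_add_card_inter _ _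
    omega

/-- A very well covered graph has a perfect matching with Favaron's property. -/
theorem exists_favaron {G : SimpleGraph V} (h : VeryWellCovered G) : ∃ m, IsFavaron G m := by
  classical
  obtain ⟨hiso, hw, hc⟩ := h
  obtain ⟨S₀, hS₀⟩ := G.maximumIndepSet_exists
  obtain ⟨S, hS₀S, hS⟩ := exists_maximal G S₀ hS₀.1
  have hSc : S.card = G.indepNum := by
    rw [← G.maximumIndepSet_card_eq_indepNum S₀ hS₀]
    exact le_antisymm (hS₀.2 _ hS.prop) (card_le_card hS₀S)
  -- Hall
  have hH : ∃ f : S → V, Function.Injective f ∧ ∀ x : S, G.Adj x (f x) := by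
    let t : S → Finset V := fun x => nbr G {(x : V)}
    have := (Finset.all_card_le_biUnion_card_iff_exists_injective t).1 (by
      intro s
      have h1 := hall hiso hw (s.map (Function.Embedding.subtype _))
        (hS.prop.mono (by
          intro x hx
          rw [mem_coe, mem_map] at hx
          obtain ⟨y, -, rfl⟩ := hx
          exact y.2))
      rw [card_map] at h1
      refine h1.trans (card_le_card ?_)
      intro b hb
      obtain ⟨a, ha, hab⟩ := mem_nbr.1 hb
      rw [mem_map] at ha
      obtain ⟨y, hy, rfl⟩ := ha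
      rw [mem_biUnion]
      exact ⟨y, hy, mem_nbr.2 ⟨_, mem_singleton_self _, hab⟩⟩)
    obtain ⟨f, hf, hft⟩ := this
    refine ⟨f, hf, fun x => ?_⟩
    obtain ⟨a, ha, hab⟩ := mem_nbr.1 (hft x)
    rw [mem_singleton] at ha
    rw [← ha]
    exact hab
  obtain ⟨f, hf, hfa⟩ := hH
  have hfS : ∀ x, f x ∉ S := fun x hx => hS.prop x.2 hx (hfa x).ne (hfa x)
  have hsurj : ∀ v, v ∉ S → ∃ x : S, f x = v := by
    have himg : (univ.image f) = Sᶜ := by
      apply eq_of_subset_of_card_le
      · intro v hv
        rw [mem_image] at hv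
        obtain ⟨x, -, rfl⟩ := hv
        exact mem_compl.2 (hfS x)
      · rw [card_image_of_injective _ hf, card_compl, hc, card_univ, Fintype.card_coe, hSc]
        omega
    intro v hv
    have : v ∈ univ.image f := by rw [himg]; exact mem_compl.2 hv
    rw [mem_image] at this
    obtain ⟨x, -, hx⟩ := this
    exact ⟨x, hx⟩
  choose g hg using hsurj
  let m : V → V := fun v => if hv : v ∈ S then f ⟨v, hv⟩ else (g v hv : V)
  have hm1 : ∀ v (hv : v ∈ S), m v = f ⟨v, hv⟩ := fun v hv => by simp [m, hv]
  have hm2 : ∀ v (hv : v ∉ S), m v = g v hv := fun v hv => by simp [m, hv]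
  have hinv : ∀ v, m (m v) = v := by
    intro v
    by_cases hv : v ∈ S
    · rw [hm1 v hv, hm2 _ (hfS _)]
      have := hg (f ⟨v, hv⟩) (hfS _)
      rw [hf this]
    · rw [hm2 v hv, hm1 _ (g v hv).2]
      exact hg v hv
  have hadj : ∀ v, G.Adj v (m v) := by
    intro v
    by_cases hv : v ∈ S
    · rw [hm1 v hv]
      exact hfa ⟨v, hv⟩
    · rw [hm2 v hv]
      have := hfa (g v hv)
      rw [hg v hv] at this
      exact this.symm
  refine ⟨m, hinv, hadj, ?_⟩
  intro v u w huv hwv
  by_contra huw
  have hI : G.IsIndepSet (({u, w} : Finset V) : Set V) := by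
    intro a ha b hb hab
    simp only [coe_insert, coe_singleton, Set.mem_insert_iff, Set.mem_singleton_iff] at ha hb
    rcases ha with rfl | rfl <;> rcases hb with rfl | rfl
    · exact absurd rfl hab
    · exact huw
    · exact fun hh => huw hh.symm
    · exact absurd rfl hab
  obtain ⟨I, hsub, hImax⟩ := exists_maximal G _ hI
  have huI : u ∈ I := hsub (by simp)
  have hwI : w ∈ I := hsub (by simp)
  have hinj : Function.Injective m := fun a b hab => by rw [← hinv a, hab, hinv]
  have hdisj : Disjoint I (I.image m) := by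
    rw [disjoint_left]
    intro x hx hx2
    rw [mem_image] at hx2
    obtain ⟨y, hy, rfl⟩ := hx2
    exact hImax.prop hy hx (hadj y).ne (hadj y)
  have hun : I ∪ I.image m = univ := by
    rw [← card_eq_iff_eq_univ, card_union_of_disjoint hdisj, card_image_of_injective _ hinj,
      hw I S hImax hS, hc, hSc]
    ring
  have hv : v ∈ I ∪ I.image m := by rw [hun]; exact mem_univ v
  rcases mem_union.1 hv with hv | hv
  · exact hImax.prop huI hv huv.ne huv
  · rw [mem_image] at hv
    obtain ⟨y, hy, rfl⟩ := hv
    rw [hinv] at hwv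
    exact hImax.prop hwI hy hwv.ne hwv

omit [Fintype V] in
theorem favaron_jets {G : SimpleGraph V} {m : V → V} (h : IsFavaron G m) (s : ℕ) :
    IsFavaron (jets G s) (fun p => (m p.1, ⟨s - p.2, by omega⟩)) := by
  refine ⟨fun p => ?_, fun p => ⟨h.adj p.1, ?_⟩, ?_⟩
  · obtain ⟨v, i⟩ := p
    ext
    · exact h.inv v
    · simp only
      omega
  · simp only
    omega
  · rintro ⟨v, i⟩ ⟨u, a⟩ ⟨w, b⟩ ⟨h1, h2⟩ ⟨h3, h4⟩
    simp only at h1 h2 h3 h4
    refine ⟨h.prop v u w h1 h3, ?_⟩
    simp only
    omega

/-- All graphs of jets of a very well covered graph are very well covered. -/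
theorem result {V : Type*} [Fintype V] (G : SimpleGraph V) (hG : VeryWellCovered G) (s : ℕ) :
    VeryWellCovered (jets G s) := by
  obtain ⟨m, hm⟩ := exists_favaron hG
  exact veryWellCovered_of_favaron (favaron_jets hm s)

end Pool.Agent.Results.MP_26e8bc_co.JetsVeryWellCovered
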